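import Pool.Agent.W745.RW.Stm

/-! Project RW (helper745), part MAIN: from balls to open sets. -/
set_option autoImplicit false
open MeasureTheory Filter Topology Complex Metric
open scoped ContDiff ENNReal

namespace Pool.Agent.W320.RW

open Pool.Agent.W745.RW

theorem sys_sub {Ω B : Set ℂ} (hsub : B ⊆ Ω) {h : ℕ → ℝ} {u : ℕ → ℂ → ℝ} (hS : Sys Ω h u)
    {ψ : ℕ → ℕ} (hψ : StrictMono ψ) : Sys B (fun n => h (ψ n)) (fun n => u (ψ n)) where
  sol n := ⟨(hS.sol _).hpos, (hS.sol _).smooth.mono hsub, fun z hz => (hS.sol _).eq z (hsub hz)⟩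
  hlim := hS.hlim.comp hψ.tendsto_atTop
  qe φ hφ k := (hS.qe φ ⟨hφ.1, hφ.2.1, hφ.2.2.trans hsub⟩ k).comp hψ.tendsto_atTop

theorem int_le {M : ℝ≥0∞} (hM : M ≠ ⊤) {B : Set ℂ} (hB : MeasurableSet B) (v : ℂ → ℝ)
    (hv : ∫⁻ z in B, ENNReal.ofReal (v z) ≤ M) (f : ℂ → ℝ) (hf0 : ∀ z, 0 ≤ f z)
    (hf1 : ∀ z ∈ B, f z ≤ v z) (hf2 : ∀ z, z ∉ B → f z = 0) : ∫ z, f z ≤ M.toReal := by
  by_cases hi : Integrable f
  · rw [← ENNReal.ofReal_le_iff_le_toReal hM,
      ofReal_integral_eq_lintegral_ofReal hi (Eventually.of_forall hf0)]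
    refine le_trans ?_ hv
    rw [← lintegral_indicator hB]
    apply lintegral_mono
    intro z
    by_cases hz : z ∈ B
    · rw [Set.indicator_of_mem hz]
      exact ENNReal.ofReal_le_ofReal (hf1 z hz)
    · simp only [hf2 z hz, ENNReal.ofReal_zero]
      exact zero_le
  · rw [integral_undef hi]
    exact ENNReal.toReal_nonneg

theorem ball_bound (hB : SBd) (hF : SF) {Ω : Set ℂ} {h : ℕ → ℝ} {u : ℕ → ℂ → ℝ}
    (hS : Sys Ω h u) (c : ℂ) (r : ℝ) (hr : 0 < r) (hsub : ball c r ⊆ Ω) :
    3 * volume (ball c r) ≤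
      liminf (fun n => ∫⁻ z in ball c r, ENNReal.ofReal (u n z ^ 4)) atTop := by
  by_contra hcon
  rw [not_le] at hcon
  obtain ⟨M, hM1, hM2⟩ := exists_between hcon
  have hMtop : M ≠ ⊤ := ne_top_of_lt hM2
  have hfreq : ∃ᶠ n in atTop, ∫⁻ z in ball c r, ENNReal.ofReal (u n z ^ 4) < M :=
    frequently_lt_of_liminf_lt (by isBoundedDefault) hM1
  obtain ⟨ψ, hψ, hψ'⟩ := extraction_of_frequently_atTop hfreq
  have hS' := sys_sub hsub hS hψ
  have hbd : Bd (ball c r) (fun n => h (ψ n)) (fun n => u (ψ n)) := by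
    apply hB _ isOpen_ball _ _ hS'.sol hS'.hlim
    intro K hK hKb
    refine ⟨M.toReal, Eventually.of_forall fun n => ?_⟩
    rw [← integral_indicator hK.measurableSet]
    refine int_le hMtop (B := ball c r) measurableSet_ball (fun z => u (ψ n) z ^ 4)
      (hψ' n).le _ ?_ ?_ ?_
    · intro z
      apply Set.indicator_nonneg
      intro z _
      positivity
    · intro z _
      by_cases hz : z ∈ K
      · rw [Set.indicator_of_mem hz]
      · rw [Set.indicator_of_notMem hz]
        positivity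
    · intro z hz
      rw [Set.indicator_of_notMem]
      intro hz'
      exact hz (hKb hz')
  have hM3 : M.toReal < 3 * (r ^ 2 * Real.pi) := by
    rw [← ENNReal.ofReal_lt_ofReal_iff (by positivity), ENNReal.ofReal_toReal hMtop]
    refine lt_of_lt_of_eq hM2 ?_
    rw [Complex.volume_ball, ENNReal.ofReal_mul (by norm_num), ENNReal.ofReal_mul (by positivity),
      ENNReal.ofReal_pow hr.le]
    congr 1
    · simp
    · congr 1
      rw [← NNReal.coe_real_pi, ENNReal.ofReal_coe_nnreal]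
  obtain ⟨ρ, hρM, hρ0, hρr⟩ : ∃ ρ : ℝ, M.toReal < 3 * (ρ ^ 2 * Real.pi) ∧ 0 < ρ ∧ ρ < r := by
    have hc : Tendsto (fun ρ : ℝ => 3 * (ρ ^ 2 * Real.pi)) (𝓝[<] r) (𝓝 (3 * (r ^ 2 * Real.pi))) := by
      have : Continuous (fun ρ : ℝ => 3 * (ρ ^ 2 * Real.pi)) := by fun_prop
      exact (this.tendsto r).mono_left nhdsWithin_le_nhds
    have h1 := hc.eventually (lt_mem_nhds hM3)
    have h2 : ∀ᶠ ρ in 𝓝[<] r, ρ ∈ Set.Ioo 0 r := Ioo_mem_nhdsLT hr
    obtain ⟨ρ, h3, h4⟩ := (h1.and h2).exists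
    exact ⟨ρ, h3, h4.1, h4.2⟩
  set f : ContDiffBump c := ⟨ρ, (ρ + r) / 2, hρ0, by linarith⟩ with hf
  have htf : TF (ball c r) f := by
    refine ⟨f.contDiff, f.hasCompactSupport, ?_⟩
    rw [f.tsupport_eq]
    apply closedBall_subset_ball
    show (ρ + r) / 2 < r
    linarith
  have hint : ρ ^ 2 * Real.pi ≤ ∫ z, f z := by
    have h1 := f.measure_closedBall_le_integral volume
    have h2 : (volume : Measure ℂ).real (closedBall c f.rIn) = ρ ^ 2 * Real.pi := by
      show ((volume : Measure ℂ) (closedBall c ρ)).toReal = _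
      rw [Complex.volume_closedBall, ENNReal.toReal_mul, ENNReal.toReal_pow,
        ENNReal.toReal_ofReal hρ0.le]
      rfl
    rwa [h2] at h1
  have hpos : M.toReal < 3 * ∫ z, f z := by linarith
  have hev := hF c r _ _ hS' hbd f htf (fun z => f.nonneg) ((3 * (∫ z, f z) - M.toReal) / 2)
    (by linarith)
  obtain ⟨n, hn⟩ := hev.exists
  have hle : ∫ z, f z * u (ψ n) z ^ 4 ≤ M.toReal := by
    refine int_le hMtop (B := ball c r) measurableSet_ball (fun z => u (ψ n) z ^ 4)
      (hψ' n).le _ ?_ ?_ ?_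
    · intro z
      have := f.nonneg (x := z)
      positivity
    · intro z _
      have h1 := f.le_one (x := z)
      have h2 : 0 ≤ u (ψ n) z ^ 4 := by positivity
      nlinarith
    · intro z hz
      have : f z = 0 := by
        by_contra hne
        apply hz
        apply htf.2.2
        exact subset_tsupport _ hne
      rw [this, zero_mul]
  linarith

theorem main (hB : SBd) (hF : SF) : SMain := by
  intro Ω hΩ h u hS
  have hR : ∀ x : ℂ, ∃ R : ℝ, x ∈ Ω → 0 < R ∧ ball x R ⊆ Ω := by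
    intro x
    by_cases hx : x ∈ Ω
    · obtain ⟨R, h1, h2⟩ := Metric.isOpen_iff.1 hΩ x hx
      exact ⟨R, fun _ => ⟨h1, h2⟩⟩
    · exact ⟨0, fun hx' => absurd hx' hx⟩
  choose R hR using hR
  obtain ⟨t, r, htc, hts, htr, hcov, hdisj⟩ :=
    Besicovitch.exists_disjoint_closedBall_covering_ae (volume : Measure ℂ) (fun _ => Set.univ) Ω
      (fun x _ δ hδ => ⟨δ / 2, trivial, by constructor <;> linarith⟩) R (fun x hx => (hR x hx).1)
  have hsub : ∀ x ∈ t, ball x (r x) ⊆ Ω := by
    intro x hx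
    refine (ball_subset_ball ?_).trans (hR x (hts hx)).2
    exact (htr x hx).2.2.le
  haveI : Countable t := htc.to_subtype
  have h1 : volume Ω ≤ ∑' x : t, volume (ball (x : ℂ) (r x)) := by
    have h2 : volume Ω ≤ volume (⋃ x ∈ t, closedBall x (r x)) := by
      have h3 : Ω ⊆ (Ω \ ⋃ x ∈ t, closedBall x (r x)) ∪ ⋃ x ∈ t, closedBall x (r x) := by
        intro z hz
        by_cases hz' : z ∈ ⋃ x ∈ t, closedBall x (r x)
        · exact Or.inr hz'
        · exact Or.inl ⟨hz, hz'⟩
      refine (measure_mono h3).trans ((measure_union_le _ _).trans ?_)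
      rw [hcov, zero_add]
    refine h2.trans ?_
    rw [Set.biUnion_eq_iUnion]
    refine (measure_iUnion_le _).trans (le_of_eq ?_)
    congr 1
    funext x
    exact Measure.addHaar_closedBall_eq_addHaar_ball _ _ _
  letI : MeasurableSpace t := ⊤
  haveI : MeasurableSingletonClass t := ⟨fun _ => trivial⟩
  calc 3 * volume Ω ≤ 3 * ∑' x : t, volume (ball (x : ℂ) (r x)) := by gcongr
    _ = ∑' x : t, 3 * volume (ball (x : ℂ) (r x)) := by rw [ENNReal.tsum_mul_left]
    _ ≤ ∑' x : t, liminf (fun n => ∫⁻ z in ball (x : ℂ) (r x), ENNReal.ofReal (u n z ^ 4)) atTop := by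
        apply ENNReal.tsum_le_tsum
        intro x
        exact ball_bound hB hF hS x (r x) (htr x x.2).2.1 (hsub x x.2)
    _ = ∫⁻ x : t, liminf (fun n => ∫⁻ z in ball (x : ℂ) (r x), ENNReal.ofReal (u n z ^ 4)) atTop
          ∂Measure.count := by rw [lintegral_count]
    _ ≤ liminf (fun n => ∫⁻ x : t, (∫⁻ z in ball (x : ℂ) (r x), ENNReal.ofReal (u n z ^ 4))
          ∂Measure.count) atTop := by
        apply lintegral_liminf_le
        intro n
        exact measurable_from_top
    _ ≤ liminf (fun n => ∫⁻ z in Ω, ENNReal.ofReal (u n z ^ 4)) atTop := by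
        refine liminf_le_liminf (Eventually.of_forall fun n => ?_) (by isBoundedDefault)
          (by isBoundedDefault)
        rw [lintegral_count, ← lintegral_iUnion (fun x => measurableSet_ball)]
        · apply lintegral_mono_set
          exact Set.iUnion_subset fun x => hsub x x.2
        · intro x y hxy
          have := hdisj x.2 y.2 (fun h' => hxy (Subtype.ext h'))
          exact this.mono ball_subset_closedBall ball_subset_closedBall

end Pool.Agent.W320.RW
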